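import Pool.Agent.Y190.OP.Open
import Pool.Agent.Y190.CI.Tf

/-! Hyperbolicity of the projective varieties near the closed subsets of the complete intersections
of linear degree. -/

set_option autoImplicit false

open Filter Topology Metric Set MvPolynomial

namespace Pool.Agent.Y190.OP

open Pool.Agent.Y190.PH Pool.Agent.W602.GT Pool.Agent.Y190.CI Pool.Agent.W603.CX

variable {c n : ℕ} {d : Fin c → ℕ} {a : (j : Fin c) → Fin (d j) → ℂ}

theorem near_sub {ι : Type} {F : ι → MvPolynomial (Fin (c + n + 1)) ℂ}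
    (hnc : n ≤ c ∨ n = c + 1 ∧ ¬ ContainsLine F) (hnum : Num n c d)
    (ha : Function.Injective fun t : Σ j, Fin (d j) => a t.1 t.2) (hF : ∀ e, IsForm (F e))
    (hV : Cone F ⊆ CompInt n a) :
    ∃ ε : ℝ, 0 < ε ∧ ∀ F' : ι → MvPolynomial (Fin (c + n + 1)) ℂ, (∀ e, IsForm (F' e)) →
      (∀ e u, ‖u‖ ≤ 1 → ‖eval u (F' e) - eval u (F e)‖ ≤ ε) → Brody F' := by
  have hB : Brody F := by
    rcases hnc with h | ⟨h, h2⟩
    · exact (hyp_low h hnum ha hF hV).1
    · exact ((hyp_seven (by omega) hnum ha hF hV).out 0 6).2 h2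
  exact open_brody hF hB

theorem near_ci (hnc : n ≤ c) (hnum : Num n c d)
    (ha : Function.Injective fun t : Σ j, Fin (d j) => a t.1 t.2) :
    ∃ ε : ℝ, 0 < ε ∧ ∀ G : Fin c → MvPolynomial (Fin (c + n + 1)) ℂ, (∀ j, IsForm (G j)) →
      (∀ j u, ‖u‖ ≤ 1 → ‖eval u (G j) - eval u (eqF n a j)‖ ≤ ε) → Brody G :=
  near_sub (Or.inl hnc) hnum ha (isForm_eqF a) (cone_eqF a).subset

end Pool.Agent.Y190.OP
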