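import Pool.Agent.Y190.OP.Zf
import Pool.Agent.Y190.PH.Tor

/-! Openness of hyperbolicity. -/

set_option autoImplicit false

open Filter Topology Metric Set MvPolynomial

namespace Pool.Agent.Y190.OP

open Pool.Agent.Y190.PH Pool.Agent.W602.GT

variable {N : ℕ} {ι : Type}

/-- the projection matrices of the points of `{F = 0}` -/
def MX (F : ι → MvPolynomial (Fin (N + 1)) ℂ) : Set (Mat (N + 1)) :=
  {M | ∃ u : Fin (N + 1) → ℂ, u ≠ 0 ∧ (∀ j, eval u (F j) = 0) ∧ M = Phi u}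

theorem eval_smul' {G : MvPolynomial (Fin (N + 1)) ℂ} (hG : IsForm G) {u : Fin (N + 1) → ℂ}
    (h : eval u G = 0) (s : ℂ) : eval (s • u) G = 0 := by
  obtain ⟨d, hd⟩ := hG
  rw [Pool.Agent.TH182.TC.eval_smul_of_homog hd, h, mul_zero]

theorem mx_unit {F : ι → MvPolynomial (Fin (N + 1)) ℂ} (hF : ∀ j, IsForm (F j))
    {M : Mat (N + 1)} (hM : M ∈ MX F) : ∃ u : Fin (N + 1) → ℂ, ‖u‖ = 1 ∧
      (∀ j, eval u (F j) = 0) ∧ M = Phi u := by
  obtain ⟨u, hu, h1, rfl⟩ := hM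
  have hn : (‖u‖ : ℂ) ≠ 0 := by exact_mod_cast (norm_pos_iff.2 hu).ne'
  refine ⟨(‖u‖ : ℂ)⁻¹ • u, ?_, fun j => eval_smul' (hF j) (h1 j) _,
    (Phi_smul (inv_ne_zero hn) u).symm⟩
  rw [norm_smul, norm_inv, Complex.norm_real, norm_norm]
  exact inv_mul_cancel₀ (norm_pos_iff.2 hu).ne'

/-- from projectively holomorphic maps to entire curves -/
theorem const_of_brody {F : ι → MvPolynomial (Fin (N + 1)) ℂ} (hF : ∀ j, IsForm (F j))
    (hB : Brody F) {H : ℂ → Mat (N + 1)} (hH : HolP univ H) (hHm : ∀ z, H z ∈ MX F) :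
    ∀ z, H z = H 0 := by
  obtain ⟨G, hG, hG0, hGH⟩ := zero_free hH
  have h1 : ∀ z i, eval (G z) (F i) = 0 := by
    intro z i
    obtain ⟨u, hu, h1, h2⟩ := hHm z
    rw [hGH z] at h2
    obtain ⟨c, hc, hcu⟩ := Phi_inj hu (hG0 z) h2.symm
    rw [hcu]
    exact eval_smul' (hF i) (h1 i) c
  intro z
  obtain ⟨c, hc⟩ := hB G hG hG0 h1 z 0
  have hc0 : c ≠ 0 := by
    rintro rfl
    rw [zero_smul] at hc
    exact hG0 z hc
  rw [hGH z, hGH 0, hc, Phi_smul hc0]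

/-- from entire curves to projectively holomorphic maps -/
theorem curve_of_not_brody {F : ι → MvPolynomial (Fin (N + 1)) ℂ} (hB : ¬ Brody F) :
    ∃ Ψ : ℂ → Mat (N + 1), HolP univ Ψ ∧ (∀ z, Ψ z ∈ MX F) ∧ ¬ ∀ z, Ψ z = Ψ 0 := by
  unfold Brody at hB
  push Not at hB
  obtain ⟨f, hf, hf0, hfF, z, w, hzw⟩ := hB
  refine ⟨fun z => Phi (f z), fun z _ => ⟨univ, f, isOpen_univ, mem_univ z, hf.differentiableOn,
    fun w _ => ⟨hf0 w, rfl⟩⟩, fun z => ⟨f z, hf0 z, hfF z, rfl⟩, fun hc => ?_⟩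
  have h1 : Phi (f w) = Phi (f z) := (hc w).trans (hc z).symm
  obtain ⟨c, -, hc2⟩ := Phi_inj (hf0 w) (hf0 z) h1
  exact hzw c hc2

/-- **Openness of hyperbolicity.** If the projective variety `{F0 = 0}` (which may be singular) is
Brody hyperbolic, then so are all projective varieties `{F = 0}` such that the forms `F j` are
uniformly close to the forms `F0 j` on the unit ball. -/
theorem open_brody {F0 : ι → MvPolynomial (Fin (N + 1)) ℂ} (hF0 : ∀ j, IsForm (F0 j))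
    (hB : Brody F0) : ∃ ε : ℝ, 0 < ε ∧ ∀ F : ι → MvPolynomial (Fin (N + 1)) ℂ,
      (∀ j, IsForm (F j)) → (∀ j u, ‖u‖ ≤ 1 → ‖eval u (F j) - eval u (F0 j)‖ ≤ ε) → Brody F := by
  by_contra hcon
  push Not at hcon
  have h1 : ∀ n : ℕ, ∃ F : ι → MvPolynomial (Fin (N + 1)) ℂ, (∀ j, IsForm (F j)) ∧
      (∀ j u, ‖u‖ ≤ 1 → ‖eval u (F j) - eval u (F0 j)‖ ≤ 1 / (n + 1 : ℝ)) ∧ ¬ Brody F :=
    fun n => hcon (1 / (n + 1 : ℝ)) (by positivity)
  choose F hF hclose hnB using h1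
  obtain ⟨H, hH, hHm, hne⟩ := limit_curve (S := fun n => MX (F n)) (T := MX F0) (by
    rintro M ⟨u, hu, -, rfl⟩
    exact ⟨u, hu, rfl⟩) (by
    intro 𝓤 hcof M hM
    have h2 : ∀ n, ∃ u : Fin (N + 1) → ℂ, M n ∈ MX (F n) → ‖u‖ = 1 ∧
        (∀ j, eval u (F n j) = 0) ∧ M n = Phi u := by
      intro n
      by_cases hn : M n ∈ MX (F n)
      · obtain ⟨u, hu⟩ := mx_unit (hF n) hn
        exact ⟨u, fun _ => hu⟩
      · exact ⟨0, fun h => absurd h hn⟩
    choose u hu using h2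
    have h3 : ∀ᶠ n in (𝓤 : Filter ℕ), u n ∈ sphere (0 : Fin (N + 1) → ℂ) 1 :=
      hM.mono fun n hn => mem_sphere_zero_iff_norm.2 (hu n hn).1
    obtain ⟨v, hv, hvt⟩ := (isCompact_sphere (0 : Fin (N + 1) → ℂ) 1).ultrafilter_le_nhds
      (𝓤.map u) (by
        rw [le_principal_iff]
        exact h3)
    have hvt' : Tendsto u 𝓤 (𝓝 v) := hvt
    have hv1 : ‖v‖ = 1 := mem_sphere_zero_iff_norm.1 hv
    have hv0 : v ≠ 0 := by
      rintro rfl
      rw [norm_zero] at hv1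
      exact zero_ne_one hv1
    refine ⟨Phi v, ⟨v, hv0, fun j => ?_, rfl⟩, ?_⟩
    · have h4 : Tendsto (fun n => eval (u n) (F0 j)) 𝓤 (𝓝 (eval v (F0 j))) :=
        ((MvPolynomial.continuous_eval (F0 j)).tendsto v).comp hvt'
      have h5 : Tendsto (fun n => eval (u n) (F0 j)) 𝓤 (𝓝 0) := by
        rw [Metric.tendsto_nhds]
        intro ε hε
        filter_upwards [hM, hcof (1 / ε)] with n hn hn2
        obtain ⟨h6, h7, -⟩ := hu n hn
        have h8 := hclose n j (u n) h6.le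
        rw [h7 j, zero_sub, norm_neg] at h8
        rw [dist_zero_right]
        refine lt_of_le_of_lt h8 ?_
        rw [div_lt_iff₀ (by positivity)]
        have h9 : 1 ≤ n * ε := by
          rwa [div_le_iff₀ hε] at hn2
        nlinarith
      exact tendsto_nhds_unique h4 h5
    · refine (((continuousAt_Phi hv0).tendsto).comp hvt').congr' ?_
      filter_upwards [hM] with n hn
      exact (hu n hn).2.2.symm) (fun n => curve_of_not_brody (hnB n))
  exact hne (const_of_brody hF0 hB hH hHm)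

end Pool.Agent.Y190.OP
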