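import Pool.Agent.Y190.OP.Near

/-! Brody hyperbolic projective varieties receive no nonconstant maps from complex tori. -/

set_option autoImplicit false

open Filter Topology Metric Set MvPolynomial

namespace Pool.Agent.Y190.OP

open Pool.Agent.Y190.PH Pool.Agent.W602.GT Pool.Agent.TH182.TC

variable {N : ℕ} {ι : Type}

theorem phi_mk {v : Fin (N + 1) → ℂ} (hv : v ≠ 0) :
    Phi (Projectivization.mk ℂ v hv).rep = Phi v := by
  obtain ⟨a, ha⟩ := Projectivization.exists_smul_eq_mk_rep ℂ v hv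
  have ha' : (Projectivization.mk ℂ v hv).rep = (a : ℂ) • v := ha.symm
  rw [ha', Phi_smul a.ne_zero]

theorem brody_torus {F : ι → MvPolynomial (Fin (N + 1)) ℂ} (hF : ∀ j, IsForm (F j))
    (hB : Brody F) : TorusRigid F := by
  intro n b g hg hX _ z w
  set A : ℂ → (Fin n → ℂ) := fun t => z + t • (w - z) with hA
  have hAd : Differentiable ℂ A :=
    (differentiable_const z).add (differentiable_id.smul_const (w - z))
  have hH : HolP univ fun t => Phi (g (A t)).rep := by
    intro t0 _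
    obtain ⟨ψ, hψ, hev⟩ := hg (A t0)
    have h1 : AnalyticAt ℂ (fun t => ψ (A t)) t0 := hψ.comp (hAd.analyticAt t0)
    have h2 : ∀ᶠ t in 𝓝 t0, AnalyticAt ℂ (fun t => ψ (A t)) t := h1.eventually_analyticAt
    have h3 : ∀ᶠ t in 𝓝 t0, ∃ h : ψ (A t) ≠ 0, g (A t) = Projectivization.mk ℂ (ψ (A t)) h :=
      hAd.continuous.continuousAt.eventually hev
    obtain ⟨V, hVsub, hV, hzV⟩ := _root_.mem_nhds_iff.1 (h2.and h3)
    refine ⟨V, fun t => ψ (A t), hV, hzV, fun t ht =>
      (hVsub ht).1.differentiableAt.differentiableWithinAt, fun t ht => ?_⟩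
    obtain ⟨h4, h5⟩ := (hVsub ht).2
    refine ⟨h4, ?_⟩
    change Phi (g (A t)).rep = Phi (ψ (A t))
    rw [h5, phi_mk]
  have h1 := const_of_brody hF hB hH (fun t => ⟨(g (A t)).rep,
    Projectivization.rep_nonzero _, fun j => hX _ j, rfl⟩) 1
  have e0 : A 0 = z := by
    rw [hA]
    simp
  have e1 : A 1 = w := by
    rw [hA]
    simp
  simp only [e0, e1] at h1
  obtain ⟨c, hc, hc2⟩ := Phi_inj (Projectivization.rep_nonzero _)
    (Projectivization.rep_nonzero _) h1
  rw [← Projectivization.mk_rep (g z), ← Projectivization.mk_rep (g w),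
    Projectivization.mk_eq_mk_iff']
  exact ⟨c, hc2.symm⟩

end Pool.Agent.Y190.OP
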