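import Pool.Agent.Y190.OP.Lift
import Pool.Agent.Y190.OP.Bro
import Pool.Agent.Y190.AN.Prim

/-! Entire homogeneous coordinates without common zeros of a projectively holomorphic map. -/

set_option autoImplicit false

open Filter Topology Metric Set

namespace Pool.Agent.Y190.OP

open Pool.Agent.Y190.AN (weier order_nat)

variable {N : ℕ}

theorem ord_ne_top {q : ℂ → ℂ} (hq : Differentiable ℂ q) (h : ∃ z, q z ≠ 0) (z : ℂ) :
    meromorphicOrderAt q z ≠ ⊤ := by
  intro ht
  rw [meromorphicOrderAt_eq_top_iff] at ht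
  rcases (hq.analyticAt z).eventually_eq_zero_or_eventually_ne_zero with h1 | h1
  · obtain ⟨x, hx⟩ := h
    have hA : AnalyticOnNhd ℂ q univ := fun z _ => hq.analyticAt z
    exact hx (hA.eqOn_zero_of_preconnected_of_eventuallyEq_zero isPreconnected_univ
      (mem_univ z) h1 (mem_univ x))
  · obtain ⟨w, hw1, hw2⟩ := (ht.and h1).exists
    exact hw2 hw1

theorem ord_finite {f : ℂ → ℂ} (hf : Differentiable ℂ f) (ρ : ℝ) :
    {z : ℂ | ‖z‖ ≤ ρ ∧ (meromorphicOrderAt f z).untop₀ ≠ 0}.Finite := by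
  have hAf : MeromorphicOn f (closedBall 0 ρ) := fun z _ => (hf.analyticAt z).meromorphicAt
  refine ((MeromorphicOn.divisor f (closedBall 0 ρ)).finiteSupport
    (isCompact_closedBall 0 ρ)).subset ?_
  rintro z ⟨h1, h3⟩
  rw [Function.mem_support, MeromorphicOn.divisor_apply hAf (mem_closedBall_zero_iff.2 h1)]
  exact h3

/-- **Zero-free coordinates.** -/
theorem zero_free {φ : ℂ → Mat N} (hφ : HolP univ φ) : ∃ G : ℂ → Fin N → ℂ,
    Differentiable ℂ G ∧ (∀ z, G z ≠ 0) ∧ ∀ z, φ z = Phi (G z) := by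
  classical
  obtain ⟨F, hF, ⟨z0, hz0⟩, hFφ⟩ := exists_lift hφ
  have hFj : ∀ j, Differentiable ℂ fun z => F z j := fun j => differentiable_pi.1 hF j
  obtain ⟨j1, hj1⟩ := Function.ne_iff.1 hz0
  let T : Finset (Fin N) := Finset.univ.filter fun j => ∃ z, F z j ≠ 0
  have hTne : T.Nonempty := ⟨j1, Finset.mem_filter.2 ⟨Finset.mem_univ _, z0, hj1⟩⟩
  have hμ : ∀ z : ℂ, ∃ μ : ℤ,
      (∀ j ∈ T, μ ≤ (meromorphicOrderAt (fun z => F z j) z).untop₀) ∧
        ∃ j ∈ T, (meromorphicOrderAt (fun z => F z j) z).untop₀ = μ := by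
    intro z
    obtain ⟨j0, hj0, hmin⟩ := Finset.exists_min_image T
      (fun j => (meromorphicOrderAt (fun z => F z j) z).untop₀) hTne
    exact ⟨_, fun j hj => hmin j hj, j0, hj0, rfl⟩
  choose μ hμ1 hμ2 using hμ
  have hTne' : ∀ j ∈ T, ∀ z, meromorphicOrderAt (fun z => F z j) z ≠ ⊤ := fun j hj z =>
    ord_ne_top (hFj j) (Finset.mem_filter.1 hj).2 z
  have hμ0 : ∀ z, 0 ≤ μ z := by
    intro z
    obtain ⟨j, hj, hj'⟩ := hμ2 z
    have h1 : 0 ≤ meromorphicOrderAt (fun z => F z j) z :=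
      ((hFj j).analyticAt z).meromorphicOrderAt_nonneg
    obtain ⟨a, ha⟩ := WithTop.ne_top_iff_exists.1 (hTne' j hj z)
    rw [← ha] at hj' h1
    have h4 : a = μ z := hj'
    rw [← h4]
    exact_mod_cast h1
  obtain ⟨h, hhd, hho⟩ := weier (fun z => (μ z).toNat) fun ρ => by
    have h1 : (⋃ j, {z : ℂ | ‖z‖ ≤ ρ ∧
        (meromorphicOrderAt (fun z => F z j) z).untop₀ ≠ 0}).Finite :=
      Set.finite_iUnion fun j => ord_finite (hFj j) ρ
    refine h1.subset ?_
    rintro z ⟨h2, h3⟩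
    obtain ⟨j, hj, hj'⟩ := hμ2 z
    rw [mem_iUnion]
    refine ⟨j, h2, ?_⟩
    rw [hj']
    intro h0
    exact h3 (by rw [h0]; rfl)
  have hord : ∀ z, meromorphicOrderAt h z = (μ z : WithTop ℤ) := by
    intro z
    rw [order_nat hhd hho]
    have := hμ0 z
    congr 1
    omega
  have hhM : ∀ z, MeromorphicAt h z := fun z => (hhd.analyticAt z).meromorphicAt
  have hFM : ∀ j z, MeromorphicAt (fun z => F z j) z := fun j z =>
    ((hFj j).analyticAt z).meromorphicAt
  have hq : ∀ j, MeromorphicOn ((fun z => F z j) / h) univ := fun j z _ => (hFM j z).div (hhM z)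
  set G : ℂ → Fin N → ℂ := fun z j => toMeromorphicNFOn ((fun z => F z j) / h) univ z with hGd
  have hNF : ∀ j, MeromorphicNFOn (fun z => G z j) univ := fun j =>
    meromorphicNFOn_toMeromorphicNFOn _ univ
  have hGord : ∀ j z, meromorphicOrderAt (fun z => G z j) z =
      meromorphicOrderAt (fun z => F z j) z - meromorphicOrderAt h z := by
    intro j z
    have h1 := meromorphicOrderAt_toMeromorphicNFOn (hq j) (mem_univ z)
    change meromorphicOrderAt (toMeromorphicNFOn ((fun z => F z j) / h) univ) z = _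
    rw [h1, meromorphicOrderAt_div (hFM j z) (hhM z)]
  have hGa : ∀ z j, AnalyticAt ℂ (fun z => G z j) z := by
    intro z j
    rw [← (hNF j (mem_univ z)).meromorphicOrderAt_nonneg_iff_analyticAt, hGord j z, hord z]
    by_cases hj : j ∈ T
    · have h1 := hμ1 z j hj
      obtain ⟨a, ha⟩ := WithTop.ne_top_iff_exists.1 (hTne' j hj z)
      rw [← ha] at h1 ⊢
      have e : (a : WithTop ℤ) - (μ z : WithTop ℤ) = ((a - μ z : ℤ) : WithTop ℤ) := rfl
      rw [e]
      have h3 : μ z ≤ a := h1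
      exact_mod_cast (sub_nonneg.2 h3)
    · have h1 : meromorphicOrderAt (fun z => F z j) z = ⊤ := by
        rw [meromorphicOrderAt_eq_top_iff]
        refine Eventually.of_forall fun w => ?_
        by_contra hne
        exact hj (Finset.mem_filter.2 ⟨Finset.mem_univ _, w, hne⟩)
      rw [h1]
      exact le_top
  have hGd' : Differentiable ℂ G := by
    rw [differentiable_pi]
    exact fun j z => (hGa z j).differentiableAt
  have hG0 : ∀ z, G z ≠ 0 := by
    intro z h0
    obtain ⟨j, hj, hj'⟩ := hμ2 z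
    have h3 : meromorphicOrderAt (fun z => G z j) z = 0 := by
      rw [hGord j z, hord z]
      obtain ⟨a, ha⟩ := WithTop.ne_top_iff_exists.1 (hTne' j hj z)
      rw [← ha] at hj' ⊢
      have h4 : a = μ z := hj'
      rw [h4]
      have e : (μ z : WithTop ℤ) - (μ z : WithTop ℤ) = ((μ z - μ z : ℤ) : WithTop ℤ) := rfl
      rw [e, sub_self]
      rfl
    rw [(hNF j (mem_univ z)).meromorphicOrderAt_eq_zero_iff] at h3
    exact h3 (congrFun h0 j)
  refine ⟨G, hGd', hG0, fun z => ?_⟩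
  have hev : ∀ᶠ w in 𝓝[≠] z, φ w = Phi (G w) := by
    have h1 : ∀ᶠ w in 𝓝[≠] z, ∀ j, G w j = ((fun z => F z j) / h) w := by
      rw [eventually_all]
      exact fun j => (hq j).toMeromorphicNFOn_eq_self_on_nhdsNE (mem_univ z)
    have h2 : ∀ᶠ w in 𝓝[≠] z, h w ≠ 0 :=
      (meromorphicOrderAt_ne_top_iff_eventually_ne_zero (hhM z)).1 (by
        rw [hord z]; exact WithTop.coe_ne_top)
    have h3 : ∀ᶠ w in 𝓝[≠] z, F w j1 ≠ 0 :=
      (meromorphicOrderAt_ne_top_iff_eventually_ne_zero (hFM j1 z)).1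
        (ord_ne_top (hFj j1) ⟨z0, hj1⟩ z)
    filter_upwards [h1, h2, h3] with w h1 h2 h3
    have hFw : F w ≠ 0 := fun h0 => h3 (congrFun h0 j1)
    have hGw : G w = (h w)⁻¹ • F w := by
      funext j
      rw [h1 j, Pi.div_apply, Pi.smul_apply, smul_eq_mul]
      field_simp
    rw [hFφ w hFw, hGw, Phi_smul (inv_ne_zero h2)]
  have h2 : Tendsto φ (𝓝[≠] z) (𝓝 (φ z)) :=
    (hφ.continuousAt (mem_univ z)).tendsto.mono_left nhdsWithin_le_nhds
  have h3 : Tendsto (fun w => Phi (G w)) (𝓝[≠] z) (𝓝 (Phi (G z))) :=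
    (((continuousAt_Phi (hG0 z)).comp hGd'.continuous.continuousAt).tendsto).mono_left
      nhdsWithin_le_nhds
  exact tendsto_nhds_unique h2 (h3.congr' (hev.mono fun w hw => hw.symm))

end Pool.Agent.Y190.OP
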